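import Pool.Agent.helper50.MA.Spec2

/-!
Module S4 of project ma: partition of unity.
-/

set_option autoImplicit false

open MeasureTheory Set Filter Topology Complex
open scoped ContDiff Real

namespace MAP

theorem S4_nsq_smooth : ContDiff ℝ ∞ nsq := by
  unfold nsq
  apply ContDiff.add
  · exact contDiff_fst.norm_sq ℝ
  · exact contDiff_snd.norm_sq ℝ

theorem S4_norm_le (x : C2) (r : ℝ) (hr : 0 ≤ r) (h : nsq x ≤ r ^ 2) : ‖x‖ ≤ r := by
  unfold nsq at h
  rw [Prod.norm_def]
  apply max_le
  · exact le_of_sq_le_sq (by nlinarith [sq_nonneg ‖x.2‖]) hr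
  · exact le_of_sq_le_sq (by nlinarith [sq_nonneg ‖x.1‖]) hr

theorem S4_cbal_compact (c : C2) (r : ℝ) (hr : 0 ≤ r) : IsCompact (cbal c r) := by
  apply Metric.isCompact_of_isClosed_isBounded
  · exact isClosed_le (S4_nsq_smooth.continuous.comp (continuous_id.sub continuous_const))
      continuous_const
  · rw [Metric.isBounded_iff_subset_closedBall c]
    refine ⟨r, fun x hx => ?_⟩
    rw [Metric.mem_closedBall, dist_eq_norm]
    exact S4_norm_le _ _ hr hx

/-- bump equal to one on the ball of radius `R / 2`, supported in the ball of radius `3 R / 4` -/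
theorem S4_bump (c : C2) (R : ℝ) (hR : 0 < R) : ∃ b : C2 → ℝ, ContDiff ℝ ∞ b ∧
    HasCompactSupport b ∧ tsupport b ⊆ cbal c R ∧ (∀ y, 0 ≤ b y) ∧
    (∀ y ∈ bal c (R / 2), b y = 1) ∧ ∀ y, b y ≠ 0 → y ∈ bal c (3 / 4 * R) := by
  set b : C2 → ℝ := fun y =>
    Real.smoothTransition ((9 / 16 * R ^ 2 - nsq (y - c)) / (5 / 16 * R ^ 2)) with hb
  have hR2 : 0 < R ^ 2 := by positivity
  have hsupp : ∀ y, b y ≠ 0 → y ∈ bal c (3 / 4 * R) := by
    intro y hy
    by_contra hcon
    apply hy
    simp only [bal, mem_ofPred_eq, not_lt] at hcon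
    apply Real.smoothTransition.zero_of_nonpos
    apply div_nonpos_of_nonpos_of_nonneg
    · nlinarith
    · positivity
  have hsub : Function.support b ⊆ cbal c (3 / 4 * R) := by
    intro y hy
    have h1 : nsq (y - c) < (3 / 4 * R) ^ 2 := hsupp y hy
    exact h1.le
  have hcl : IsClosed (cbal c (3 / 4 * R)) := (S4_cbal_compact c _ (by positivity)).isClosed
  refine ⟨b, ?_, ?_, ?_, ?_, ?_, hsupp⟩
  · apply Real.smoothTransition.contDiff.comp
    apply ContDiff.div_const
    apply contDiff_const.sub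
    exact S4_nsq_smooth.comp (contDiff_id.sub contDiff_const)
  · exact HasCompactSupport.of_support_subset_isCompact (S4_cbal_compact c _ (by positivity)) hsub
  · refine (closure_minimal hsub hcl).trans ?_
    intro y hy
    have hy' : nsq (y - c) ≤ (3 / 4 * R) ^ 2 := hy
    show nsq (y - c) ≤ R ^ 2
    nlinarith
  · intro y
    exact Real.smoothTransition.nonneg _
  · intro y hy
    have hy' : nsq (y - c) < (R / 2) ^ 2 := hy
    apply Real.smoothTransition.one_of_one_le
    rw [le_div_iff₀ (by positivity)]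
    nlinarith

theorem S4 (hS3 : S3_stmt) : S4_stmt := by
  classical
  intro X _ _ _ K
  obtain ⟨h1, -⟩ := hS3 X K
  choose b hb1 hb2 hb3 hb4 hb5 hb6 using fun i => S4_bump (K.c i) (K.R i) (K.R_pos i)
  set χ' : Fin K.n → X → ℝ := fun i => Set.indicator (K.e i).source (fun x => b i (K.e i x)) with hχ'
  have hsm : ∀ i, K.Smo (χ' i) := fun i =>
    h1 i (b i) (hb1 i) (hb2 i) ((hb3 i).trans (K.ball_sub i))
  have hnn : ∀ i x, 0 ≤ χ' i x := by
    intro i x
    apply Set.indicator_nonneg
    intro y _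
    exact hb4 i _
  have hpos : ∀ x, 0 < ∑ k, χ' k x := by
    intro x
    obtain ⟨i, hi1, hi2⟩ := K.cover x
    have h2 : χ' i x = 1 := by
      simp only [hχ', Set.indicator_of_mem hi1]
      exact hb5 i _ hi2
    have h3 : χ' i x ≤ ∑ k, χ' k x :=
      Finset.single_le_sum (f := fun k => χ' k x) (fun k _ => hnn k x) (Finset.mem_univ i)
    linarith
  refine ⟨fun i x => χ' i x / ∑ k, χ' k x, ?_, ?_, ?_, ?_⟩
  · intro i j
    unfold KS.lo
    refine ContDiffOn.div (hsm i j) (ContDiffOn.sum fun k _ => hsm k j) ?_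
    intro y _
    exact (hpos _).ne'
  · intro i x
    exact div_nonneg (hnn i x) (hpos x).le
  · intro x
    rw [← Finset.sum_div, div_self (hpos x).ne']
  · intro i x hx
    have h2 : χ' i x ≠ 0 := by
      intro h0
      apply hx
      simp [h0]
    have h3 : x ∈ (K.e i).source := by
      by_contra hcon
      exact h2 (Set.indicator_of_notMem hcon _)
    refine ⟨h3, ?_⟩
    simp only [hχ', Set.indicator_of_mem h3] at h2
    exact hb6 i _ h2

end MAP

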