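import Pool.Agent.helper50.MA.Spec1

/-!
Module A5 of project ma: smoothing of continuous plurisubharmonic functions.
-/

set_option autoImplicit false

open MeasureTheory Set Filter Topology Complex
open scoped ContDiff Real

namespace MAP

theorem A5_haar : (volume : Measure C2).IsAddHaarMeasure :=
  inferInstanceAs ((volume : Measure ℂ).prod (volume : Measure ℂ)).IsAddHaarMeasure

theorem A5_norm (θ : ℝ) (ξ : C2) : ‖cexp (θ * I) • ξ‖ = ‖ξ‖ := by
  rw [norm_smul, Complex.norm_exp_ofReal_mul_I, one_mul]

theorem A5_int (ψ : C2 → ℝ) (G : C2 → ℝ) (hψ : Continuous ψ) (hψ0 : ∀ t, 0 ≤ ψ t)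
    (hψc : HasCompactSupport ψ) (hG : Continuous G) (x ξ : C2) :
    Integrable (fun p : ℝ × C2 => ψ p.2 * G (x + cexp (p.1 * I) • ξ - p.2))
      ((volume.restrict (Ioc (0 : ℝ) (2 * π))).prod volume) := by
  obtain ⟨r, hr⟩ : ∃ r : ℝ, ∀ t, ψ t ≠ 0 → ‖t‖ ≤ r := by
    obtain ⟨r, hr⟩ := hψc.isCompact.isBounded.exists_norm_le
    exact ⟨r, fun t ht => hr t (subset_tsupport ψ ht)⟩
  obtain ⟨M, hM⟩ : ∃ M : ℝ, ∀ y ∈ Metric.closedBall (0 : C2) (‖x‖ + ‖ξ‖ + r), ‖G y‖ ≤ M :=
    (isCompact_closedBall _ _).exists_bound_of_continuousOn hG.continuousOn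
  have hint : Integrable ψ (volume : Measure C2) := hψ.integrable_of_hasCompactSupport hψc
  have hint2 : Integrable (fun p : ℝ × C2 => ψ p.2)
      ((volume.restrict (Ioc (0 : ℝ) (2 * π))).prod volume) := hint.comp_snd _
  refine (hint2.mul_const M).mono' ?_ ?_
  · apply Continuous.aestronglyMeasurable
    fun_prop
  · filter_upwards with p
    rw [norm_mul, Real.norm_of_nonneg (hψ0 _)]
    by_cases h0 : ψ p.2 = 0
    · simp [h0]
    · apply mul_le_mul_of_nonneg_left _ (hψ0 _)
      apply hM
      rw [mem_closedBall_zero_iff]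
      calc ‖x + cexp (p.1 * I) • ξ - p.2‖ ≤ ‖x + cexp (p.1 * I) • ξ‖ + ‖p.2‖ := norm_sub_le _ _
        _ ≤ ‖x‖ + ‖cexp (p.1 * I) • ξ‖ + ‖p.2‖ := by gcongr; exact norm_add_le _ _
        _ ≤ ‖x‖ + ‖ξ‖ + r := by rw [A5_norm]; gcongr; exact hr _ h0

theorem A5 : A5_stmt := by
  intro U K u ε hU hu hK hKU hε
  have := A5_haar
  obtain ⟨d, hd, hdU⟩ := hK.exists_cthickening_subset_open hU hKU
  have hK1 : IsCompact (Metric.cthickening d K) := hK.cthickening
  have hucont : ContinuousOn u (Metric.cthickening d K) := hu.1.mono hdU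
  have huc : UniformContinuousOn u (Metric.cthickening d K) :=
    hK1.uniformContinuousOn_of_continuous hucont
  rw [Metric.uniformContinuousOn_iff] at huc
  obtain ⟨η, hη, huη⟩ := huc ε hε
  -- continuous extension
  obtain ⟨G, hG⟩ : ∃ G : C(C2, ℝ), ∀ y ∈ Metric.cthickening d K, G y = u y := by
    obtain ⟨G, hG⟩ := ContinuousMap.exists_restrict_eq (Y := ℝ) (s := Metric.cthickening d K)
      Metric.isClosed_cthickening
      (⟨fun y => u y, continuousOn_iff_continuous_domRestrict.mp hucont⟩ : C(Metric.cthickening d K, ℝ))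
    refine ⟨G, fun y hy => ?_⟩
    have := DFunLike.congr_fun hG ⟨y, hy⟩
    simpa using this
  have hr : 0 < min (d / 2) η := lt_min (by linarith) hη
  let φ : ContDiffBump (0 : C2) := ⟨min (d / 2) η / 2, min (d / 2) η, by linarith, by linarith⟩
  let ψ : C2 → ℝ := φ.normed volume
  have hψs : ContDiff ℝ ∞ ψ := φ.contDiff_normed
  have hψc : HasCompactSupport ψ := φ.hasCompactSupport_normed
  have hψ0 : ∀ t, 0 ≤ ψ t := fun t => φ.nonneg_normed t
  have hψsupp : ∀ t, ψ t ≠ 0 → ‖t‖ < min (d / 2) η := by
    intro t ht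
    have : t ∈ Function.support ψ := ht
    rw [φ.support_normed_eq, mem_ball_zero_iff] at this
    exact this
  have hV : ∀ x ∈ Metric.thickening (d / 2) K, ∀ t, ‖t‖ < min (d / 2) η →
      x - t ∈ Metric.cthickening d K := by
    intro x hx t ht
    obtain ⟨z, hz, hxz⟩ := Metric.mem_thickening_iff.mp hx
    apply Metric.thickening_subset_cthickening
    rw [Metric.mem_thickening_iff]
    refine ⟨z, hz, ?_⟩
    have h1 : dist (x - t) x = ‖t‖ := by rw [dist_eq_norm]; simp
    have h2 := dist_triangle (x - t) x z
    have h3 := min_le_left (d / 2) η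
    linarith
  have hVK : Metric.thickening (d / 2) K ⊆ Metric.cthickening d K :=
    (Metric.thickening_mono (by linarith) K).trans (Metric.thickening_subset_cthickening d K)
  have hloc : LocallyIntegrable (fun y => G y) (volume : Measure C2) :=
    (map_continuous G).locallyIntegrable
  have hw : ∀ x : C2, (convolution ψ (fun y => G y) (ContinuousLinearMap.lsmul ℝ ℝ) volume) x =
      ∫ t, ψ t * G (x - t) := by
    intro x
    rfl
  refine ⟨convolution ψ (fun y => G y) (ContinuousLinearMap.lsmul ℝ ℝ) volume,
    Metric.thickening (d / 2) K, ?_, Metric.isOpen_thickening,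
    Metric.self_subset_thickening (by linarith) K, hVK.trans hdU, ?_, ?_⟩
  · exact hψc.contDiff_convolution_left _ hψs hloc
  · refine ⟨(hψc.contDiff_convolution_left _ hψs hloc).continuous.continuousOn, ?_⟩
    intro x ξ hdisc
    have hInt := A5_int ψ G hψs.continuous hψ0 hψc (map_continuous G) x ξ
    have hxV : x ∈ Metric.thickening (d / 2) K := hdisc ⟨0, by simp, by simp⟩
    unfold mean
    simp only [hw]
    rw [intervalIntegral.integral_of_le (by positivity)]
    rw [MeasureTheory.integral_integral_swap hInt]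
    rw [← MeasureTheory.integral_const_mul]
    apply MeasureTheory.integral_mono
    · apply Continuous.integrable_of_hasCompactSupport
      · have := hψs.continuous
        have := map_continuous G
        fun_prop
      · exact hψc.mul_right
    · exact (hInt.integral_prod_right).const_mul _
    · intro t
      simp only
      rw [MeasureTheory.integral_const_mul]
      by_cases h0 : ψ t = 0
      · simp [h0]
      · have ht := hψsupp t h0
        have hd2 : disc (x - t) ξ ⊆ U := by
          rintro y ⟨ζ, hζ, rfl⟩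
          apply hdU
          have : x - t + ζ • ξ = (x + ζ • ξ) - t := by abel
          rw [this]
          exact hV _ (hdisc ⟨ζ, hζ, rfl⟩) t ht
        have h1 := hu.2 (x - t) ξ hd2
        have h2 : G (x - t) = u (x - t) := hG _ (hV x hxV t ht)
        have h3 : mean u (x - t) ξ =
            (2 * π)⁻¹ * ∫ θ in Ioc (0 : ℝ) (2 * π), G (x + cexp (θ * I) • ξ - t) := by
          unfold mean
          rw [intervalIntegral.integral_of_le (by positivity)]
          congr 1
          apply MeasureTheory.setIntegral_congr_fun measurableSet_Ioc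
          intro θ _
          have h4 : x + cexp (θ * I) • ξ ∈ disc x ξ :=
            ⟨cexp (θ * I), by rw [Complex.norm_exp_ofReal_mul_I], rfl⟩
          have h5 := hG _ (hV _ (hdisc h4) t ht)
          simp only
          rw [h5]
          congr 1
          abel
        rw [h2]
        calc ψ t * u (x - t) ≤ ψ t * mean u (x - t) ξ := mul_le_mul_of_nonneg_left h1 (hψ0 t)
          _ = _ := by rw [h3]; ring
  · intro x hx
    have hxK : x ∈ Metric.cthickening d K := hVK hx
    have h1 : dist ((convolution ψ (fun y => G y) (ContinuousLinearMap.lsmul ℝ ℝ) volume) x) (G x) ≤ ε := by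
      apply φ.dist_normed_convolution_le (map_continuous G).aestronglyMeasurable
      intro y hy
      have hy2 : ‖x - y‖ < min (d / 2) η := by
        have : dist y x < min (d / 2) η := hy
        rw [dist_comm, dist_eq_norm] at this
        exact this
      have hyK : y ∈ Metric.cthickening d K := by
        have := hV x hx (x - y) hy2
        simpa using this
      rw [hG y hyK, hG x hxK]
      apply le_of_lt
      apply huη y hyK x hxK
      have : dist y x < min (d / 2) η := hy
      exact this.trans_le (min_le_right _ _)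
    rw [Real.dist_eq, hG x hxK] at h1
    exact h1

end MAP

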