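import Pool.Agent.helper50.MA.SpecF

/-!
Module F4 of project ma: Lemma A.
-/

set_option autoImplicit false

open MeasureTheory Set Filter Topology
open scoped ContDiff Real

namespace MAP

section

variable {X : Type} [TopologicalSpace X] [CompactSpace X] [T2Space X] [SecondCountableTopology X]
  [MeasurableSpace X] [BorelSpace X]

omit [CompactSpace X] [T2Space X] [SecondCountableTopology X] [BorelSpace X] in
theorem F4_const (T : MATh X) (c : ℝ) : (fun _ : X => c) ∈ T.C0 := T.ps_c0 (T.const_ps c)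

omit [CompactSpace X] [T2Space X] [SecondCountableTopology X] in
theorem F4_mass (T : MATh X) (f : X → ℝ) (hf : f ∈ T.C0) (m : ℝ) :
    (T.M f (fun _ => 0)).real {x | f x ≤ -m} =
      (T.M (fun x => max (f x) (-m)) (fun _ => 0)).real {x | f x ≤ -m} := by
  have h0 := F4_const T 0
  have hv : (fun x => max (f x) (-m)) ∈ T.C0 := T.max_mem f hf _ (F4_const T (-m))
  have hfc := T.cont f hf
  have := T.fin f hf _ h0
  have := T.fin _ hv _ h0
  have hU : IsOpen {x | -m < f x} := isOpen_lt continuous_const hfc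
  have hc : {x | f x ≤ -m} = {x | -m < f x}ᶜ := by
    ext x
    simp
  have h1 := T.loc f hf _ hv _ h0 {x | -m < f x} hU
    (fun x hx => (max_eq_left (le_of_lt hx)).symm) {x | -m < f x} hU.measurableSet subset_rfl
  rw [hc, measureReal_compl hU.measurableSet, measureReal_compl hU.measurableSet,
    T.mass f hf _ h0, T.mass _ hv _ h0]
  congr 1
  unfold Measure.real
  rw [h1]

omit [T2Space X] [SecondCountableTopology X] in
theorem F4_big (T : MATh X) (p : X) (g : X → ℝ) (hg : g ∈ T.C0) (w : X → ℝ) (hw : Continuous w)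
    (hw0 : ∀ x, 0 ≤ w x) (hz : ∀ x, (T.ld p).r1 ≤ (T.ld p).d x → w x = 0) :
    ∫ x, w x ∂T.M (fun _ => 0) g ≤ (T.ld p).C *
      ((∫ x, w x ∂T.M (fun x => (T.ld p).χ x / (T.ld p).C) g) - ∫ x, w x ∂T.M (fun _ => 0) g) := by
  have hC := (T.ld p).C_pos
  have h0 := F4_const T 0
  have hf0 := T.fin _ h0 g hg
  have hf1 := T.fin _ (T.ld p).χ_mem g hg
  have hS : IsOpen {x | (T.ld p).d x < (T.ld p).r1} := isOpen_lt (T.ld p).d_cont continuous_const
  have hSm := hS.measurableSet
  have hbig := (T.ld p).χ_big g hg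
  have hr : ∀ ν : Measure X, ∫ x, w x ∂ν = ∫ x in {x | (T.ld p).d x < (T.ld p).r1}, w x ∂ν := by
    intro ν
    symm
    apply setIntegral_eq_integral_of_forall_compl_eq_zero
    intro x hx
    apply hz
    simpa using hx
  have hle : ENNReal.ofReal ((T.ld p).C + 1) •
      (T.M (fun _ => 0) g).restrict {x | (T.ld p).d x < (T.ld p).r1} ≤
      ENNReal.ofReal (T.ld p).C • (T.M (fun x => (T.ld p).χ x / (T.ld p).C) g).restrict
        {x | (T.ld p).d x < (T.ld p).r1} := by
    rw [Measure.le_iff]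
    intro A hA
    rw [Measure.smul_apply, Measure.smul_apply, Measure.restrict_apply hA,
      Measure.restrict_apply hA, smul_eq_mul, smul_eq_mul]
    have h1 := hbig (A ∩ {x | (T.ld p).d x < (T.ld p).r1}) (hA.inter hSm) inter_subset_right
    rw [← ofReal_measureReal (measure_ne_top _ _), ← ofReal_measureReal (measure_ne_top _ _),
      ← ENNReal.ofReal_mul (by linarith), ← ENNReal.ofReal_mul (by linarith)]
    exact ENNReal.ofReal_le_ofReal h1
  have hint : ∀ ν : Measure X, IsFiniteMeasure ν → Integrable w ν := fun ν hν =>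
    hw.integrable_of_hasCompactSupport (HasCompactSupport.of_compactSpace w)
  have h2 := integral_mono_measure hle (Eventually.of_forall hw0)
    (((hint _ hf1).restrict (s := {x | (T.ld p).d x < (T.ld p).r1})).smul_measure
      ENNReal.ofReal_ne_top)
  rw [integral_smul_measure, integral_smul_measure, ENNReal.toReal_ofReal (by linarith),
    ENNReal.toReal_ofReal hC.le, ← hr, ← hr, smul_eq_mul, smul_eq_mul] at h2
  linarith

omit [T2Space X] [SecondCountableTopology X] in
theorem F4_key (T : MATh X) (p : X) (f : X → ℝ) (hf : f ∈ T.C0) (m : ℝ) :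
    (T.ld p).e0 * (T.M (fun _ => 0) (fun x => max (f x) (-m))).real
        ({x | f x ≤ -m} ∩ {x | (T.ld p).d x ≤ (T.ld p).r1 / 2}) ≤
      (∫ x, (T.ld p).χ x ∂T.M (fun x => max (f x) ((T.ld p).e0 * (T.ld p).q x + -m))
        (fun x => max (f x) ((T.ld p).e0 * (T.ld p).q x + -m))) -
      ∫ x, (T.ld p).χ x ∂T.M (fun x => max (f x) (-m)) (fun x => max (f x) (-m)) := by
  set v : X → ℝ := fun x => max (f x) (-m) with hv
  set v' : X → ℝ := fun x => max (f x) ((T.ld p).e0 * (T.ld p).q x + -m) with hv'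
  have hC := (T.ld p).C_pos
  have he := (T.ld p).e0_pos
  have h0 := F4_const T 0
  have hvm : v ∈ T.C0 := T.max_mem f hf _ (F4_const T (-m))
  have hvm' : v' ∈ T.C0 := T.max_mem f hf _ (T.add_const _ (T.ld p).q_mem (-m))
  have hχ := (T.ld p).χ_mem
  have hvc := T.cont v hvm
  have hvc' := T.cont v' hvm'
  set w : X → ℝ := fun x => v' x - v x with hw
  have hwc : Continuous w := hvc'.sub hvc
  have hw0 : ∀ x, 0 ≤ w x := by
    intro x
    simp only [hw, hv, hv']
    have : 0 ≤ (T.ld p).e0 * (T.ld p).q x := mul_nonneg he.le ((T.ld p).q_nonneg x)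
    have := max_le_max (le_refl (f x)) (show -m ≤ (T.ld p).e0 * (T.ld p).q x + -m by linarith)
    linarith
  have hwz : ∀ x, (T.ld p).r1 ≤ (T.ld p).d x → w x = 0 := by
    intro x hx
    simp only [hw, hv, hv', (T.ld p).q_zero x hx, mul_zero, zero_add, sub_self]
  have hb1 := F4_big T p v' hvm' w hwc hw0 hwz
  have hb2 := F4_big T p v hvm w hwc hw0 hwz
  have s1 := T.stokes v' hvm' v hvm v' hvm' _ hχ
  have s2 := T.stokes v' hvm' v hvm v hvm _ hχ
  rw [T.symm v hvm v' hvm'] at s1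
  have hdiv : ∀ ν : Measure X, ∫ x, (T.ld p).χ x / (T.ld p).C ∂ν =
      (∫ x, (T.ld p).χ x ∂ν) / (T.ld p).C := fun ν => integral_div _ _
  rw [hdiv, hdiv] at s1 s2
  have hfin2 := T.fin _ h0 v hvm
  have hpos : 0 ≤ ∫ x, w x ∂T.M (fun _ => 0) v' := integral_nonneg hw0
  have hmeas : MeasurableSet ({x | f x ≤ -m} ∩ {x | (T.ld p).d x ≤ (T.ld p).r1 / 2}) :=
    ((isClosed_le (T.cont f hf) continuous_const).inter
      (isClosed_le (T.ld p).d_cont continuous_const)).measurableSet
  have hlow : (T.ld p).e0 * (T.M (fun _ => 0) v).real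
      ({x | f x ≤ -m} ∩ {x | (T.ld p).d x ≤ (T.ld p).r1 / 2}) ≤ ∫ x, w x ∂T.M (fun _ => 0) v := by
    have hint : Integrable w (T.M (fun _ => 0) v) :=
      hwc.integrable_of_hasCompactSupport (HasCompactSupport.of_compactSpace w)
    have hs1 : (T.ld p).e0 * (T.M (fun _ => 0) v).real
        ({x | f x ≤ -m} ∩ {x | (T.ld p).d x ≤ (T.ld p).r1 / 2}) =
        ∫ x in ({x | f x ≤ -m} ∩ {x | (T.ld p).d x ≤ (T.ld p).r1 / 2}), (T.ld p).e0
          ∂T.M (fun _ => 0) v := by
      rw [setIntegral_const, smul_eq_mul, mul_comm]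
    have hs2 : ∫ x in ({x | f x ≤ -m} ∩ {x | (T.ld p).d x ≤ (T.ld p).r1 / 2}), (T.ld p).e0
          ∂T.M (fun _ => 0) v ≤
        ∫ x in ({x | f x ≤ -m} ∩ {x | (T.ld p).d x ≤ (T.ld p).r1 / 2}), w x
          ∂T.M (fun _ => 0) v := by
      apply setIntegral_mono_on (integrable_const _) hint.integrableOn hmeas
      rintro x ⟨hx1, hx2⟩
      have hx1' : f x ≤ -m := hx1
      simp only [hw, hv, hv', (T.ld p).q_one x hx2, mul_one]
      rw [max_eq_right hx1', max_eq_right (by linarith)]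
      linarith
    have hs3 : ∫ x in ({x | f x ≤ -m} ∩ {x | (T.ld p).d x ≤ (T.ld p).r1 / 2}), w x
          ∂T.M (fun _ => 0) v ≤ ∫ x, w x ∂T.M (fun _ => 0) v :=
      setIntegral_le_integral hint (Eventually.of_forall hw0)
    linarith
  have e1 : (∫ x, (T.ld p).χ x ∂T.M v' v') - ∫ x, (T.ld p).χ x ∂T.M v v =
      (T.ld p).C * (((∫ x, (T.ld p).χ x ∂T.M v' v') / (T.ld p).C -
        (∫ x, (T.ld p).χ x ∂T.M v' v) / (T.ld p).C) +
        ((∫ x, (T.ld p).χ x ∂T.M v' v) / (T.ld p).C -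
        (∫ x, (T.ld p).χ x ∂T.M v v) / (T.ld p).C)) := by
    field_simp
    ring
  rw [e1, s1, s2]
  simp only [← hw] at *
  nlinarith

omit [T2Space X] [SecondCountableTopology X] [CompactSpace X] [MeasurableSpace X] [BorelSpace X]
  [TopologicalSpace X] in
theorem F4_dec (f : ℕ → X → ℝ) (φ : X → EReal) (hf : DecTo f φ) (J : ℕ → ℕ) (hJ : StrictMono J)
    (m : ℕ → ℝ) (hm : Monotone m) (hmt : Tendsto m atTop atTop) (c : X → ℝ) :
    DecTo (fun n x => max (f (J n) x) (c x + -(m n))) φ := by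
  have hanti : ∀ x, Antitone (fun j => f j x) := fun x => antitone_nat_of_succ_le (fun j => hf.1 j x)
  refine ⟨?_, ?_⟩
  · intro n x
    apply max_le_max
    · exact hanti x (hJ.monotone (Nat.le_succ n))
    · have := hm (Nat.le_succ n)
      linarith
  · intro x
    have h1 : Tendsto (fun n => ((f (J n) x : ℝ) : EReal)) atTop (𝓝 (φ x)) :=
      (hf.2 x).comp hJ.tendsto_atTop
    have h2 : Tendsto (fun n => ((c x + -(m n) : ℝ) : EReal)) atTop (𝓝 ⊥) := by
      rw [EReal.tendsto_coe_nhds_bot_iff]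
      exact tendsto_atBot_add_const_left _ _ (tendsto_neg_atTop_atBot.comp hmt)
    have h3 := h1.max h2
    rw [max_bot_right] at h3
    refine h3.congr (fun n => ?_)
    exact (EReal.coe_strictMono.monotone.map_max).symm

end

theorem F4 (hF2 : F2_stmt) : F4_stmt := by
  intro X _ _ _ _ _ _ T φ μ hμ hDMA f hf hdec hf0 ε hε
  -- local version
  have hloc : ∀ p : X, ∀ δ : ℝ, 0 < δ → ∃ j0 : ℕ, ∃ m0 : ℝ, ∀ j ≥ j0, ∀ m ≥ m0,
      (T.M (fun _ => 0) (fun x => max (f j x) (-m))).real
        ({x | f j x ≤ -m} ∩ {x | (T.ld p).d x ≤ (T.ld p).r1 / 2}) ≤ δ := by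
    intro p δ hδ
    by_contra hcon
    push Not at hcon
    choose J hJ Mf hMf hbad using hcon
    let s : ℕ → ℕ × ℝ := fun n => Nat.rec (J 0 0, Mf 0 0)
      (fun _ s => (J (s.1 + 1) (s.2 + 1), Mf (s.1 + 1) (s.2 + 1))) n
    have hs : ∀ n, s (n + 1) = (J ((s n).1 + 1) ((s n).2 + 1), Mf ((s n).1 + 1) ((s n).2 + 1)) :=
      fun n => rfl
    have hmono : StrictMono (fun n => (s n).1) := by
      apply strictMono_nat_of_lt_succ
      intro n
      simp only [hs]
      have := hJ ((s n).1 + 1) ((s n).2 + 1)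
      omega
    have hstep : ∀ n, (s n).2 + 1 ≤ (s (n + 1)).2 := by
      intro n
      rw [hs]
      exact hMf _ _
    have hmm : Monotone (fun n => (s n).2) := by
      apply monotone_nat_of_le_succ
      intro n
      have := hstep n
      linarith
    have hmt : Tendsto (fun n => (s n).2) atTop atTop := by
      have hlow : ∀ n : ℕ, (s 0).2 + n ≤ (s n).2 := by
        intro n
        induction n with
        | zero => simp
        | succ n ih =>
          have := hstep n
          push_cast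
          linarith
      refine tendsto_atTop_mono hlow ?_
      exact tendsto_atTop_add_const_left _ _ tendsto_natCast_atTop_atTop
    have hb : ∀ n, δ < (T.M (fun _ => 0) (fun x => max (f (s n).1 x) (-(s n).2))).real
        ({x | f (s n).1 x ≤ -(s n).2} ∩ {x | (T.ld p).d x ≤ (T.ld p).r1 / 2}) := by
      intro n
      cases n with
      | zero => exact hbad 0 0
      | succ n => rw [hs]; exact hbad _ _
    have hd1 := F4_dec f φ hdec _ hmono _ hmm hmt (fun _ => 0)
    have hd2 := F4_dec f φ hdec _ hmono _ hmm hmt (fun x => (T.ld p).e0 * (T.ld p).q x)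
    simp only [zero_add] at hd1
    have hC1 : ∀ n, (fun x => max (f (s n).1 x) (-(s n).2)) ∈ T.C0 := fun n =>
      T.max_mem _ (hf _) _ (F4_const T _)
    have hC2 : ∀ n, (fun x => max (f (s n).1 x) ((T.ld p).e0 * (T.ld p).q x + -(s n).2)) ∈ T.C0 :=
      fun n => T.max_mem _ (hf _) _ (T.add_const _ (T.ld p).q_mem _)
    have t1 := hF2 X T φ μ hμ hDMA _ hC1 hd1 _ (T.ld p).χ_cont
    have t2 := hF2 X T φ μ hμ hDMA _ hC2 hd2 _ (T.ld p).χ_cont
    have t3 := t2.sub t1
    rw [sub_self] at t3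
    have he := (T.ld p).e0_pos
    have hev := t3.eventually (gt_mem_nhds (show (0 : ℝ) < (T.ld p).e0 * δ by positivity))
    obtain ⟨n, hn⟩ := hev.exists
    have hk := F4_key T p (f (s n).1) (hf _) (s n).2
    have hbn := hb n
    have : (T.ld p).e0 * δ < (T.ld p).e0 * (T.M (fun _ => 0)
        (fun x => max (f (s n).1 x) (-(s n).2))).real
        ({x | f (s n).1 x ≤ -(s n).2} ∩ {x | (T.ld p).d x ≤ (T.ld p).r1 / 2}) :=
      mul_lt_mul_of_pos_left hbn he
    linarith
  -- finite cover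
  have hopen : ∀ p : X, IsOpen {x | (T.ld p).d x < (T.ld p).r1 / 2} := fun p =>
    isOpen_lt (T.ld p).d_cont continuous_const
  obtain ⟨t, ht⟩ := isCompact_univ.elim_finite_subcover
    (fun p : X => {x | (T.ld p).d x < (T.ld p).r1 / 2}) hopen (by
      intro x _
      rw [mem_iUnion]
      refine ⟨x, ?_⟩
      have := (T.ld x).r1_pos
      simp only [mem_ofPred_eq, (T.ld x).d_p]
      linarith)
  choose j0 m0 hjm using fun p : X => hloc p (ε / (t.card + 1)) (by positivity)
  refine ⟨t.sup j0, ∑ p ∈ t, |m0 p|, ?_⟩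
  intro j hj m hm
  rw [F4_mass T (f j) (hf j) m]
  have hv : (fun x => max (f j x) (-m)) ∈ T.C0 := T.max_mem _ (hf j) _ (F4_const T (-m))
  rw [T.symm _ hv _ (F4_const T 0)]
  have hfin := T.fin _ (F4_const T 0) _ hv
  have hsub : {x | f j x ≤ -m} ⊆ ⋃ p ∈ t,
      ({x | f j x ≤ -m} ∩ {x | (T.ld p).d x ≤ (T.ld p).r1 / 2}) := by
    intro x hx
    have hxt := ht (mem_univ x)
    rw [mem_iUnion₂] at hxt ⊢
    obtain ⟨p, hp, hxp⟩ := hxt
    have hxp' : (T.ld p).d x < (T.ld p).r1 / 2 := hxp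
    exact ⟨p, hp, hx, hxp'.le⟩
  have h1 : (T.M (fun _ => 0) (fun x => max (f j x) (-m))).real {x | f j x ≤ -m} ≤
      ∑ p ∈ t, (T.M (fun _ => 0) (fun x => max (f j x) (-m))).real
        ({x | f j x ≤ -m} ∩ {x | (T.ld p).d x ≤ (T.ld p).r1 / 2}) :=
    (measureReal_mono hsub (measure_ne_top _ _)).trans (measureReal_biUnion_finset_le _ _)
  have h2 : ∑ p ∈ t, (T.M (fun _ => 0) (fun x => max (f j x) (-m))).real
        ({x | f j x ≤ -m} ∩ {x | (T.ld p).d x ≤ (T.ld p).r1 / 2}) ≤
      ∑ p ∈ t, ε / (t.card + 1) := by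
    apply Finset.sum_le_sum
    intro p hp
    apply hjm p j ((Finset.le_sup hp).trans hj) m
    have h3 : |m0 p| ≤ ∑ p ∈ t, |m0 p| :=
      Finset.single_le_sum (f := fun p => |m0 p|) (fun q _ => abs_nonneg _) hp
    exact (le_abs_self _).trans (h3.trans hm)
  refine h1.trans (h2.trans ?_)
  rw [Finset.sum_const, nsmul_eq_mul, mul_div_assoc', div_le_iff₀ (by positivity)]
  nlinarith

end MAP

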